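import Pool.Agent.Helper82.OD.Rt

/-!
# Project NG (helper82): primes which split completely
-/

set_option autoImplicit false
set_option linter.all false

open IsDedekindDomain WithZero Filter Topology MonoidWithZeroHom NumberField
open scoped Classical

namespace Pool.Agent.Helper82.NG

open Pool.Agent.Helper82.PT
open Pool.Agent.Helper82.PT.Rn
open Pool.Agent.Helper82.PT.Cy (exists_blw)
open Pool.Agent.N385.PX (val_inj)

section

variable {F L : Type} [Field F] [NumberField F] [Field L] [NumberField L] [Algebra F L]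

theorem blw_pl {w₀ : HeightOneSpectrum (𝓞 F)} (j : L →ₐ[F] w₀.adicCompletion F) :
    blw F (Embf.pl j) = w₀ := by
  apply HeightOneSpectrum.ext
  ext a
  exact (Embf.mem_pI_iff j a).symm

theorem exists_emb [IsGalois F L] {w₀ : HeightOneSpectrum (𝓞 F)} (j : L →ₐ[F] w₀.adicCompletion F)
    {v : HeightOneSpectrum (𝓞 L)} (hv : blw F v = w₀) :
    ∃ j' : L →ₐ[F] w₀.adicCompletion F, Embf.pl j' = v := by
  obtain ⟨g, hg⟩ := trans_pr ((blw_pl j).trans hv.symm)
  refine ⟨j.comp (g : L →ₐ[F] L), ?_⟩
  apply HeightOneSpectrum.ext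
  ext x
  rw [← HeightOneSpectrum.valuation_lt_one_iff_mem (K := L), Embf.lt_iff,
    ← HeightOneSpectrum.valuation_lt_one_iff_mem (K := L), hg, Embf.lt_iff]
  rfl

theorem eq_one_of_emb [IsGalois F L] {w₀ : HeightOneSpectrum (𝓞 F)}
    (j : L →ₐ[F] w₀.adicCompletion F) {v : HeightOneSpectrum (𝓞 L)} (hv : blw F v = w₀)
    (τ : L ≃ₐ[F] L) (hfix : ∀ x : L, v.valuation L (τ x) = v.valuation L x) : τ = 1 := by
  obtain ⟨σ, hpl⟩ := exists_emb j hv
  ext x
  by_contra hne
  have hx0 : τ x - x ≠ 0 := sub_ne_zero.2 hne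
  obtain ⟨π, hπ⟩ := w₀.valuation_exists_uniformizer F
  have hπ0 : π ≠ 0 := by
    rintro rfl
    rw [map_zero] at hπ
    exact WithZero.exp_ne_zero hπ.symm
  have key : ∀ c : F, c ≠ 0 → v.valuation L (τ x - x) < v.valuation L (algebraMap F L c) := by
    intro c hc
    have hc' : algebraMap F L c ≠ 0 := by rwa [Ne, map_eq_zero]
    obtain ⟨a, ha⟩ := dense_lt w₀ (σ (x / algebraMap F L c))
    have h1 : v.valuation L (x / algebraMap F L c - algebraMap F L a) < 1 := by
      rw [← hpl, Embf.lt_iff, Embf.vs, map_sub, σ.commutes]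
      exact ha
    have h2 : v.valuation L (τ (x / algebraMap F L c - algebraMap F L a)) < 1 := by
      rw [hfix]
      exact h1
    have h3 : v.valuation L ((τ x - x) / algebraMap F L c) < 1 := by
      have e : (τ x - x) / algebraMap F L c = τ (x / algebraMap F L c - algebraMap F L a) -
          (x / algebraMap F L c - algebraMap F L a) := by
        rw [map_sub, map_div₀, τ.commutes, τ.commutes]
        ring
      rw [e]
      exact lt_of_le_of_lt (Valuation.map_sub _ _ _) (max_lt h2 h1)
    rw [map_div₀] at h3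
    exact (div_lt_one₀ (zero_lt_iff.2 ((Valuation.ne_zero_iff _).2 hc'))).1 h3
  have hπv : v.valuation L (algebraMap F L π) < 1 := by
    rw [← hpl, Embf.lt_iff, Embf.vF, hπ]
    rw [← WithZero.exp_zero, WithZero.exp_lt_exp]
    norm_num
  have hπ1 : v.valuation L (algebraMap F L π) ≠ 0 :=
    (Valuation.ne_zero_iff _).2 (by rwa [Ne, map_eq_zero])
  have hy : v.valuation L (τ x - x) ≠ 0 := (Valuation.ne_zero_iff _).2 hx0
  have e1 : WithZero.exp (WithZero.log (v.valuation L (algebraMap F L π))) =
      v.valuation L (algebraMap F L π) := WithZero.exp_log hπ1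
  have e2 : WithZero.exp (WithZero.log (v.valuation L (τ x - x))) =
      v.valuation L (τ x - x) := WithZero.exp_log hy
  set l := WithZero.log (v.valuation L (algebraMap F L π)) with hl
  set m := WithZero.log (v.valuation L (τ x - x)) with hm
  have hl1 : l ≤ -1 := by
    rw [← e1, ← WithZero.exp_zero, WithZero.exp_lt_exp] at hπv
    omega
  have h4 := key (π ^ (m.natAbs)) (pow_ne_zero _ hπ0)
  rw [map_pow, map_pow, ← e1, ← e2, ← WithZero.exp_nsmul, WithZero.exp_lt_exp] at h4
  have h5 : (m.natAbs : ℤ) * l ≤ -(m.natAbs : ℤ) := by nlinarith [Int.natCast_nonneg m.natAbs]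
  have h6 : m.natAbs • l = (m.natAbs : ℤ) * l := by simp
  rw [h6] at h4
  have h7 : -(m.natAbs : ℤ) ≤ m := by omega
  omega

end

section up

variable {F P : Type} [Field F] [NumberField F] [Field P] [NumberField P] [Algebra F P]

/-- The map from `F` with the topology of the prime below `v'`. -/
noncomputable def fu (v' : HeightOneSpectrum (𝓞 P)) :
    WithVal ((blw F v').valuation F) →+* v'.adicCompletion P :=
  ((algebraMap P (v'.adicCompletion P)).comp (algebraMap F P)).comp
    (WithVal.equiv ((blw F v').valuation F)).toRingHom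

theorem fu_cont (v' : HeightOneSpectrum (𝓞 P)) : Continuous (fu (F := F) v') := by
  have key : ContinuousAt (fu (F := F) v').toAddMonoidHom 0 := by
    show Tendsto (fu (F := F) v') (𝓝 0) (𝓝 (fu (F := F) v' 0))
    rw [map_zero]
    intro s hs
    obtain ⟨γ, hγ⟩ := Valued.mem_nhds_zero.1 hs
    have hg : ValueGroup₀.embedding γ.1 ≠ 0 := by
      rw [Ne, map_eq_zero]
      exact γ.ne_zero
    obtain ⟨n, hn, -⟩ := exists_exp_neg_natCast_lt_and_lt hg hg
    obtain ⟨π, hπ⟩ := (blw F v').valuation_exists_uniformizer F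
    have hπ0 : π ≠ 0 := by
      rintro rfl
      rw [map_zero] at hπ
      exact exp_ne_zero hπ.symm
    have hne : (Valued.v (R := WithVal ((blw F v').valuation F))).restrict
        (WithVal.toVal ((blw F v').valuation F) (π ^ n)) ≠ 0 := by
      rw [Valuation.ne_zero_iff]
      intro h
      exact pow_ne_zero n hπ0 ((WithVal.toVal_eq_zero _ _).1 h)
    rw [Filter.mem_map, Valued.mem_nhds_zero]
    refine ⟨Units.mk0 _ hne, fun x hx => hγ ?_⟩
    have hx' : Valued.v x < Valued.v (WithVal.toVal ((blw F v').valuation F) (π ^ n)) :=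
      (Valuation.restrict_lt_iff _).1 hx
    have hx2 : (blw F v').valuation F x.ofVal < (blw F v').valuation F (π ^ n) := hx'
    show (Valued.v (R := v'.adicCompletion P)).restrict (fu (F := F) v' x) < γ
    rw [Valuation.restrict_lt_iff_lt_embedding]
    refine lt_of_le_of_lt ?_ hn
    have e2 : Valued.v (fu (F := F) v' x) = v'.valuation P (algebraMap F P x.ofVal) := by
      exact HeightOneSpectrum.valuedAdicCompletion_eq_valuation' v' _
    obtain ⟨e, he, hval⟩ := Pool.Agent.Helper82.OD.val_pow (K := F) v'
    rw [e2, hval]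
    have h5 : (blw F v').valuation F x.ofVal ≤ exp (-(n : ℤ)) := by
      refine hx2.le.trans ?_
      rw [map_pow, hπ, ← exp_nsmul]
      apply le_of_eq
      congr 1
      simp
    refine (pow_le_of_le_one zero_le' ?_ he).trans h5
    refine h5.trans ?_
    rw [← exp_zero, exp_le_exp]
    simp
  exact continuous_of_continuousAt_zero (fu (F := F) v').toAddMonoidHom key

/-- The map of the completions. -/
noncomputable def phi (v' : HeightOneSpectrum (𝓞 P)) :
    (blw F v').adicCompletion F →+* v'.adicCompletion P :=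
  (UniformSpace.Completion.extensionHom (fu (F := F) v') (fu_cont v')).comp
    (HeightOneSpectrum.adicCompletion.equiv F (blw F v')).toRingHom

theorem phi_coe (v' : HeightOneSpectrum (𝓞 P)) (a : F) :
    phi (F := F) v' (algebraMap F ((blw F v').adicCompletion F) a) =
      algebraMap P (v'.adicCompletion P) (algebraMap F P a) :=
  UniformSpace.Completion.extensionHom_coe (fu (F := F) v') (fu_cont v') (WithVal.toVal _ a)

theorem phi_cont (v' : HeightOneSpectrum (𝓞 P)) : Continuous (phi (F := F) v') := by
  have h1 : Continuous (UniformSpace.Completion.extensionHom (fu (F := F) v') (fu_cont v')) :=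
    UniformSpace.Completion.continuous_extension
  exact h1.comp (HeightOneSpectrum.adicCompletion.uniformEquiv F (blw F v')).continuous

end up

end Pool.Agent.Helper82.NG
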