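import Pool.Agent.Helper82.NG.Emb

/-!
# Project NG (helper82): primes and real places which split completely in `L / F` split completely in `L / P`
-/

set_option autoImplicit false
set_option linter.all false

open IsDedekindDomain WithZero Filter Topology MonoidWithZeroHom NumberField
open scoped Classical

namespace Pool.Agent.Helper82.NG

open Pool.Agent.Helper82.PT
open Pool.Agent.Helper82.PT.Rn
open Pool.Agent.Helper82.PT.Cy (exists_blw)

section

variable {F P : Type} [Field F] [NumberField F] [Field P] [NumberField P] [Algebra F P]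

theorem dense_F {v' : HeightOneSpectrum (𝓞 P)} (j : P →ₐ[F] (blw F v').adicCompletion F)
    (hj : Embf.pl j = v') :
    DenseRange (fun a : F => (WithVal.toVal (v'.valuation P) (algebraMap F P a) :
      WithVal (v'.valuation P))) := by
  intro x
  rw [mem_closure_iff_nhds]
  intro t ht
  obtain ⟨γ, hγ⟩ := Valued.mem_nhds.1 ht
  have hg : ValueGroup₀.embedding γ.1 ≠ 0 := by
    rw [Ne, map_eq_zero]
    exact γ.ne_zero
  obtain ⟨n, hn, -⟩ := exists_exp_neg_natCast_lt_and_lt hg hg
  obtain ⟨π, hπ⟩ := (blw F v').valuation_exists_uniformizer F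
  have hπ0 : π ≠ 0 := by
    rintro rfl
    rw [map_zero] at hπ
    exact exp_ne_zero hπ.symm
  have hc0 : algebraMap F P (π ^ n) ≠ 0 := by
    rw [Ne, map_eq_zero]
    exact pow_ne_zero n hπ0
  obtain ⟨a, ha⟩ := dense_lt (blw F v') (j (x.ofVal / algebraMap F P (π ^ n)))
  have hlt : ∀ y : P, v'.valuation P y < 1 ↔ Embf.vs j y < 1 := by
    intro y
    have h := Embf.lt_iff j y
    rwa [hj] at h
  have h1 : v'.valuation P (x.ofVal / algebraMap F P (π ^ n) - algebraMap F P a) < 1 := by
    rw [hlt, Embf.vs, map_sub, j.commutes]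
    exact ha
  refine ⟨_, hγ ?_, ⟨a * π ^ n, rfl⟩⟩
  rw [Set.mem_setOf_eq, Valuation.restrict_lt_iff_lt_embedding]
  refine lt_of_lt_of_le ?_ hn.le
  have e1 : Valued.v (WithVal.toVal (v'.valuation P) (algebraMap F P (a * π ^ n)) - x) =
      v'.valuation P (algebraMap F P (a * π ^ n) - x.ofVal) := rfl
  rw [e1, Valuation.map_sub_swap]
  have e2 : x.ofVal - algebraMap F P (a * π ^ n) =
      (x.ofVal / algebraMap F P (π ^ n) - algebraMap F P a) * algebraMap F P (π ^ n) := by
    rw [map_mul]
    field_simp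
  rw [e2, map_mul]
  have h2 : v'.valuation P (algebraMap F P (π ^ n)) ≤ exp (-(n : ℤ)) := by
    obtain ⟨e, he, hval⟩ := Pool.Agent.Helper82.OD.val_pow (K := F) v'
    rw [hval]
    have h5 : (blw F v').valuation F (π ^ n) ≤ exp (-(n : ℤ)) := by
      rw [map_pow, hπ, ← exp_nsmul]
      apply le_of_eq
      congr 1
      simp
    refine (pow_le_of_le_one zero_le' ?_ he).trans h5
    refine h5.trans ?_
    rw [← exp_zero, exp_le_exp]
    simp
  have h3 : v'.valuation P (algebraMap F P (π ^ n)) ≠ 0 := (Valuation.ne_zero_iff _).2 hc0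
  calc _ < 1 * v'.valuation P (algebraMap F P (π ^ n)) :=
        mul_lt_mul_of_pos_right h1 (zero_lt_iff.2 h3)
    _ ≤ _ := by rw [one_mul]; exact h2

theorem phi_eq {v' : HeightOneSpectrum (𝓞 P)} (j : P →ₐ[F] (blw F v').adicCompletion F)
    (hj : Embf.pl j = v') (x : P) :
    phi (F := F) v' (j x) = algebraMap P (v'.adicCompletion P) x := by
  have hw' : ∀ u : HeightOneSpectrum (𝓞 P), Embf.pl j = u →
      Continuous (fun y : WithVal (u.valuation P) => j y.ofVal) := by
    rintro u rfl
    exact Embf.wf_cont j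
  have hw := hw' v' hj
  have h1 : Continuous (fun y : WithVal (v'.valuation P) => phi (F := F) v' (j y.ofVal)) :=
    (phi_cont v').comp hw
  have h2 : Continuous (fun y : WithVal (v'.valuation P) =>
      algebraMap P (v'.adicCompletion P) y.ofVal) := by
    have h3 : Continuous (fun y : WithVal (v'.valuation P) =>
      HeightOneSpectrum.adicCompletion.ofCompletion (y : (v'.valuation P).Completion)) :=
      (HeightOneSpectrum.adicCompletion.continuous_ofCompletion P v').comp
        (UniformSpace.Completion.continuous_coe _)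
    exact h3
  have h3 := (dense_F j hj).equalizer h1 h2 (by
    funext a
    show phi (F := F) v' (j (algebraMap F P a)) =
      algebraMap P (v'.adicCompletion P) (algebraMap F P a)
    rw [j.commutes, phi_coe])
  exact congrFun h3 (WithVal.toVal _ x)

end

section tower

variable {F P L : Type} [Field F] [NumberField F] [Field P] [NumberField P] [Field L] [NumberField L]
  [Algebra F P] [Algebra P L] [Algebra F L] [IsScalarTower F P L]

theorem blw_blw (v : HeightOneSpectrum (𝓞 L)) : blw F (blw P v) = blw F v := by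
  apply HeightOneSpectrum.ext
  ext a
  rw [mem_blw, mem_blw, mem_blw, ← IsScalarTower.algebraMap_apply]

/-- Primes which split completely in `L / F` split completely in `L / P`. -/
theorem emb_up [IsGalois F L] (v' : HeightOneSpectrum (𝓞 P))
    (h : Nonempty (L →ₐ[F] (blw F v').adicCompletion F)) :
    Nonempty (L →ₐ[P] v'.adicCompletion P) := by
  obtain ⟨j₀⟩ := h
  obtain ⟨v, hv⟩ := exists_blw (M := L) v'
  obtain ⟨j, hj⟩ := exists_emb j₀ (v := v) (by rw [← hv, blw_blw])
  have hjP : Embf.pl (j.comp (IsScalarTower.toAlgHom F P L)) = v' := by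
    apply HeightOneSpectrum.ext
    ext x
    have e : x ∈ v'.asIdeal ↔ v.valuation L (algebraMap P L (x : P)) < 1 := by
      rw [← Pool.Agent.Helper82.OD.mem_blw_iff, hv]
    rw [e, ← HeightOneSpectrum.valuation_lt_one_iff_mem (K := P), Embf.lt_iff, ← hj, Embf.lt_iff]
    rfl
  refine ⟨{ toFun := fun x => phi (F := F) v' (j x)
            map_one' := by rw [map_one, map_one]
            map_mul' := fun x y => by rw [map_mul, map_mul]
            map_zero' := by rw [map_zero, map_zero]
            map_add' := fun x y => by rw [map_add, map_add]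
            commutes' := fun x => phi_eq _ hjP x }⟩

/-- Real places. -/
theorem real_up [IsGalois F L] (h : ∀ σ : F →+* ℝ, ∃ ρ : L →+* ℝ, ρ.comp (algebraMap F L) = σ)
    (σ : P →+* ℝ) : ∃ ρ : L →+* ℝ, ρ.comp (algebraMap P L) = σ := by
  haveI : FiniteDimensional P L := Module.Finite.of_restrictScalars_finite ℚ P L
  obtain ⟨ρ₀, hρ₀⟩ := h (σ.comp (algebraMap F P))
  -- an extension of `σ` to `L` with values in `ℂ`
  let σ' : P →+* ℂ := Complex.ofRealHom.comp σ
  letI a1 : Algebra P ℂ := σ'.toAlgebra
  letI a2 : Algebra F ℂ := (σ'.comp (algebraMap F P)).toAlgebra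
  letI a3 : Algebra L ℂ := (Complex.ofRealHom.comp ρ₀).toAlgebra
  haveI t1 : IsScalarTower F P ℂ := IsScalarTower.of_algebraMap_eq' rfl
  haveI t2 : IsScalarTower F L ℂ := IsScalarTower.of_algebraMap_eq' (by
    show (Complex.ofRealHom.comp σ).comp (algebraMap F P) =
      (Complex.ofRealHom.comp ρ₀).comp (algebraMap F L)
    rw [RingHom.comp_assoc, RingHom.comp_assoc, hρ₀])
  obtain ⟨f⟩ : Nonempty (L →ₐ[P] ℂ) := ⟨IsAlgClosed.lift⟩
  let f' : L →ₐ[F] ℂ := f.restrictScalars F
  let g : L ≃ₐ[F] L := Normal.algHomEquivAut F ℂ L f'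
  have hg : ∀ x, algebraMap L ℂ (g x) = f' x := by
    intro x
    have h1 : (Normal.algHomEquivAut F ℂ L).symm g = f' := Equiv.symm_apply_apply _ _
    rw [← h1]
    rfl
  refine ⟨ρ₀.comp (g : L →+* L), ?_⟩
  ext x
  apply Complex.ofReal_injective
  have h1 := hg (algebraMap P L x)
  have h2 : f' (algebraMap P L x) = algebraMap P ℂ x := f.commutes x
  rw [h2] at h1
  exact h1

end tower

end Pool.Agent.Helper82.NG
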